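import Mathlib
import Pool.Agent.Helper38.PG.Limit
import Pool.Agent.Helper38.PI.Core

/-!
# The zone interface of a limit object, and the grid of products
-/

set_option autoImplicit false

open Filter Topology
open Pool.Agent.Helper38.PG (rlim)

namespace Pool.Agent.Helper38.PI

/-- `F n N = s n * γ n ^ N` for all `N` near `R ^ 2 + t R`, for most `n` -/
def HasVal {G : Type*} [CommGroup G] (F : ℕ → ℤ → G) (γ : ℕ → G) (R : ℕ → ℝ) (U : Ultrafilter ℕ)
    (t : ℝ) (s : ℕ → G) : Prop :=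
  ∃ η : ℝ, 0 < η ∧ ∀ᶠ n in (U : Filter ℕ), ∀ N : ℤ, |(N : ℝ) - R n ^ 2 - t * R n| ≤ η * R n →
    F n N = s n * γ n ^ N

/-- A sequence of completely multiplicative functions `F n`, geometric progressions with the ratio
`γ n` on the zones `t ^ 2 ∈ (k + e - ε, k + e)` near `R ^ 2`, on both sides. -/
structure Zon {G : Type*} [CommGroup G] (ε : ℝ) (s0 γ : ℕ → G) (F : ℕ → ℤ → G) (R : ℕ → ℝ)
    (U : Ultrafilter ℕ) : Prop where
  hε : 0 < ε
  hε1 : ε < 1
  hmul : ∀ n, ∀ a b : ℤ, a ≠ 0 → b ≠ 0 → F n (a * b) = F n a * F n b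
  hR : Tendsto R U atTop
  hz : ∀ e : ℝ, 0 ≤ e → Tendsto (fun n => ((⌈2 * R n ^ 2⌉ : ℤ) : ℝ) - 2 * R n ^ 2) U (𝓝 e) →
    ∀ k : ℤ, 1 ≤ k → ∃ c : ℕ → G, ∀ t : ℝ, 0 < t → (k : ℝ) + e - ε < t ^ 2 → t ^ 2 < k + e →
      HasVal F γ R U t c ∧ HasVal F γ R U (-t) (fun n => s0 n * (c n)⁻¹ * γ n ^ (-k))

namespace Zon

variable {G : Type*} [CommGroup G] {ε : ℝ} {s0 γ : ℕ → G} {F : ℕ → ℤ → G} {R : ℕ → ℝ}
  {U : Ultrafilter ℕ} {e : ℝ}

theorem Rpos (H : Zon ε s0 γ F R U) (C : ℝ) : ∀ᶠ n in (U : Filter ℕ), C < R n :=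
  H.hR.eventually_gt_atTop C

theorem hinv (H : Zon ε s0 γ F R U) (C : ℝ) : Tendsto (fun n => C / R n) U (𝓝 0) :=
  H.hR.const_div_atTop C

theorem _root_.Pool.Agent.Helper38.PI.twist {G : Type*} [CommGroup G] (x y s γ : G) (u v i k : ℤ)
    (h : x * y = s * γ ^ ((u + i) * (v + k))) :
    x * γ ^ (-((u + i) * v)) * (y * γ ^ (-(u * k))) = s * γ ^ (i * k) := by
  rw [show x * γ ^ (-((u + i) * v)) * (y * γ ^ (-(u * k))) =
    (x * y) * (γ ^ (-((u + i) * v)) * γ ^ (-(u * k))) by ac_rfl, h, ← zpow_add, mul_assoc, ← zpow_add]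
  congr 2
  ring

/-- the grid of products `(u + i) (v + k)` -/
theorem grid (H : Zon ε s0 γ F R U) (u : ℕ → ℤ) (ρ : ℝ) (hρ : 0 < ρ)
    (hu : Tendsto (fun n => (u n : ℝ) / R n) U (𝓝 ρ)) :
    ∃ (t0 : ℝ) (v : ℕ → ℤ) (b : ℤ → ℕ → G), ∀ (i k : ℤ) (s : ℕ → G),
      HasVal F γ R U (t0 + i / ρ + k * ρ) s →
      ∀ᶠ n in (U : Filter ℕ), F n (u n + i) * γ n ^ (-((u n + i) * v n)) * b k n =
        s n * γ n ^ (i * k) := by
  obtain ⟨v, hv⟩ : ∃ v : ℕ → ℤ, ∀ n, v n = ⌊R n ^ 2 / u n⌋ := ⟨fun n => ⌊R n ^ 2 / u n⌋, fun _ => rfl⟩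
  have hupos : ∀ᶠ n in (U : Filter ℕ), 0 < (u n : ℝ) / R n := hu.eventually_const_lt hρ
  have hub : ∀ᶠ n in (U : Filter ℕ), (u n : ℝ) / R n < ρ + 1 := hu.eventually_lt_const (by linarith)
  -- the second factor
  have hvt : Tendsto (fun n => (v n : ℝ) / R n) U (𝓝 (1 / ρ)) := by
    have h1 : Tendsto (fun n => 1 / ((u n : ℝ) / R n)) U (𝓝 (1 / ρ)) := by
      simpa [one_div] using hu.inv₀ hρ.ne'
    have h2 : Tendsto (fun n => 1 / ((u n : ℝ) / R n) - 1 / R n) U (𝓝 (1 / ρ)) := by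
      simpa using h1.sub (H.hinv 1)
    refine tendsto_of_tendsto_of_tendsto_of_le_of_le' h2 h1 ?_ ?_
    · filter_upwards [hupos, H.Rpos 0] with n h3 h4
      have hun : 0 < (u n : ℝ) := by
        have := mul_pos h3 h4
        rwa [div_mul_cancel₀ _ h4.ne'] at this
      have h5 := Int.sub_one_lt_floor (R n ^ 2 / u n)
      rw [hv, le_div_iff₀ h4]
      have h6 : (1 / ((u n : ℝ) / R n) - 1 / R n) * R n = R n ^ 2 / u n - 1 := by
        field_simp
      rw [h6]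
      exact h5.le
    · filter_upwards [hupos, H.Rpos 0] with n h3 h4
      have hun : 0 < (u n : ℝ) := by
        have := mul_pos h3 h4
        rwa [div_mul_cancel₀ _ h4.ne'] at this
      have h5 := Int.floor_le (R n ^ 2 / u n)
      rw [hv, div_le_iff₀ h4]
      have h6 : 1 / ((u n : ℝ) / R n) * R n = R n ^ 2 / u n := by
        field_simp
      rw [h6]
      exact h5
  -- the base point
  obtain ⟨t0, -, ht0⟩ := rlim U (fun n => ((u n : ℝ) * v n - R n ^ 2) / R n) (-(ρ + 1)) 0 (by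
    filter_upwards [hupos, hub, H.Rpos 0] with n h3 h3' h4
    have hun : 0 < (u n : ℝ) := by
      have := mul_pos h3 h4
      rwa [div_mul_cancel₀ _ h4.ne'] at this
    have h5 := Int.floor_le (R n ^ 2 / u n)
    have h6 := Int.sub_one_lt_floor (R n ^ 2 / u n)
    rw [← hv] at h5 h6
    have h7 : (v n : ℝ) * u n ≤ R n ^ 2 := by rwa [le_div_iff₀ hun] at h5
    have h8 : R n ^ 2 < ((v n : ℝ) + 1) * u n := by
      have : R n ^ 2 / u n < v n + 1 := by linarith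
      rwa [div_lt_iff₀ hun] at this
    rw [div_lt_iff₀ h4] at h3'
    rw [Set.mem_Icc, le_div_iff₀ h4, div_le_iff₀ h4]
    constructor <;> nlinarith)
  refine ⟨t0, v, fun k n => F n (v n + k) * γ n ^ (-(u n * k)), fun i k s ⟨η, hη, hs⟩ => ?_⟩
  have hi0 : ∀ᶠ n in (U : Filter ℕ), 0 < ((u n : ℝ) / R n + i / R n) := by
    have := hu.add (H.hinv i)
    rw [add_zero] at this
    exact this.eventually_const_lt hρ
  have hk0 : ∀ᶠ n in (U : Filter ℕ), 0 < ((v n : ℝ) / R n + k / R n) := by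
    have := hvt.add (H.hinv k)
    rw [add_zero] at this
    exact this.eventually_const_lt (by positivity)
  have hy : Tendsto (fun n => ((u n : ℝ) * v n - R n ^ 2) / R n + i * ((v n : ℝ) / R n) +
      k * ((u n : ℝ) / R n) + (i * k) / R n) U (𝓝 (t0 + i * (1 / ρ) + k * ρ + 0)) :=
    (((ht0.add (hvt.const_mul _)).add (hu.const_mul _)).add (H.hinv _))
  have hy2 : ∀ᶠ n in (U : Filter ℕ), |(((u n : ℝ) * v n - R n ^ 2) / R n + i * ((v n : ℝ) / R n) +
      k * ((u n : ℝ) / R n) + (i * k) / R n) - (t0 + i / ρ + k * ρ)| < η := by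
    have h1 := Metric.tendsto_nhds.1 hy η hη
    filter_upwards [h1] with n h2
    rw [Real.dist_eq] at h2
    convert h2 using 2
    ring
  filter_upwards [hs, hi0, hk0, hy2, H.Rpos 0] with n h1 h4 h5 h6 h7
  have hne1 : u n + i ≠ 0 := by
    intro h0
    have : (u n : ℝ) + i = 0 := by exact_mod_cast h0
    rw [← add_div, this, zero_div] at h4
    exact lt_irrefl _ h4
  have hne2 : v n + k ≠ 0 := by
    intro h0
    have : (v n : ℝ) + k = 0 := by exact_mod_cast h0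
    rw [← add_div, this, zero_div] at h5
    exact lt_irrefl _ h5
  have hfin : F n ((u n + i) * (v n + k)) = s n * γ n ^ ((u n + i) * (v n + k)) := by
    apply h1
    push_cast
    have h8 : (((u n : ℝ) + i) * (v n + k) - R n ^ 2 - (t0 + i / ρ + k * ρ) * R n) =
        ((((u n : ℝ) * v n - R n ^ 2) / R n + i * ((v n : ℝ) / R n) +
        k * ((u n : ℝ) / R n) + (i * k) / R n) - (t0 + i / ρ + k * ρ)) * R n := by
      field_simp
      ring
    rw [h8, abs_mul, abs_of_pos h7]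
    exact mul_le_mul_of_nonneg_right h6.le h7.le
  rw [H.hmul n _ _ hne1 hne2] at hfin
  exact twist _ _ _ _ _ _ _ _ hfin

end Zon

end Pool.Agent.Helper38.PI
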