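import Mathlib
import Pool.Agent.Helper38.PI.Zon

/-!
# Two constant windows at a bounded distance: the zones
-/

set_option autoImplicit false

open Filter Topology

namespace Pool.Agent.Helper38.PI

/-- A sequence of completely multiplicative functions `F n`, constant on
`(M² R⁴, M² R⁴ + ε M² R²]` and on `(M² R⁴ + 2 j M R² + j², M² R⁴ + 2 j M R² + ε M² R²]`. -/
structure Hyp2 {G : Type*} [CommGroup G] (ε : ℝ) (j : ℕ) (M : ℤ) (s0 s1 : ℕ → G) (F : ℕ → ℤ → G)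
    (R : ℕ → ℝ) (U : Ultrafilter ℕ) : Prop where
  hε : 0 < ε
  hε1 : ε < 1
  hj : 1 ≤ j
  hM : M = 2 * j
  hmul : ∀ n, ∀ a b : ℤ, a ≠ 0 → b ≠ 0 → F n (a * b) = F n a * F n b
  hR : Tendsto R U atTop
  hW0 : ∀ n, ∀ z : ℤ, (M : ℝ) ^ 2 * R n ^ 4 < z → (z : ℝ) ≤ M ^ 2 * R n ^ 4 + ε * M ^ 2 * R n ^ 2 →
    F n z = s0 n
  hW1 : ∀ n, ∀ z : ℤ, (M : ℝ) ^ 2 * R n ^ 4 + 2 * j * M * R n ^ 2 + j ^ 2 < z →
    (z : ℝ) ≤ M ^ 2 * R n ^ 4 + 2 * j * M * R n ^ 2 + ε * M ^ 2 * R n ^ 2 → F n z = s1 n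

theorem core (K a b ε σ R d : ℝ) (hR : 0 < R) (ha : 0 ≤ a) (hK : 0 ≤ K)
    (c1 : b ^ 2 + σ < K * (1 - b / R)) (c2 : K * (1 + b / R) + σ < a ^ 2 + ε)
    (h1 : a * R ≤ |d|) (h2 : |d| ≤ b * R) :
    R ^ 4 + σ * R ^ 2 < R ^ 4 - d ^ 2 + K * (R ^ 2 + d) ∧
    R ^ 4 - d ^ 2 + K * (R ^ 2 + d) ≤ R ^ 4 + (ε - σ) * R ^ 2 := by
  have hDb := abs_le.1 h2
  have hDD : d ^ 2 ≤ (b * R) ^ 2 := by
    rw [← sq_abs d]
    exact pow_le_pow_left₀ (abs_nonneg d) h2 2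
  have hDa : (a * R) ^ 2 ≤ d ^ 2 := by
    rw [← sq_abs d]
    exact pow_le_pow_left₀ (by positivity) h1 2
  have d1 : K * (1 - b / R) * R ^ 2 = K * (R ^ 2 - b * R) := by
    field_simp
  have d2 : (K * (1 + b / R) + σ) * R ^ 2 = K * (R ^ 2 + b * R) + σ * R ^ 2 := by
    field_simp
  have hR2 : 0 < R ^ 2 := by positivity
  have d3 : (b ^ 2 + σ) * R ^ 2 < K * (R ^ 2 - b * R) := by
    rw [← d1]
    exact mul_lt_mul_of_pos_right c1 hR2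
  have d4 : K * (R ^ 2 + b * R) + σ * R ^ 2 < (a ^ 2 + ε) * R ^ 2 := by
    rw [← d2]
    exact mul_lt_mul_of_pos_right c2 hR2
  have d5 : K * (R ^ 2 - b * R) ≤ K * (R ^ 2 + d) := mul_le_mul_of_nonneg_left (by linarith) hK
  have d6 : K * (R ^ 2 + d) ≤ K * (R ^ 2 + b * R) := mul_le_mul_of_nonneg_left (by linarith) hK
  constructor <;> nlinarith

namespace Hyp2

variable {G : Type*} [CommGroup G] {ε : ℝ} {j : ℕ} {M : ℤ} {s0 s1 : ℕ → G} {F : ℕ → ℤ → G}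
  {R : ℕ → ℝ} {U : Ultrafilter ℕ} {e : ℝ}

theorem Rpos (H : Hyp2 ε j M s0 s1 F R U) (C : ℝ) : ∀ᶠ n in (U : Filter ℕ), C < R n :=
  H.hR.eventually_gt_atTop C

theorem hinv (H : Hyp2 ε j M s0 s1 F R U) (C : ℝ) : Tendsto (fun n => C / R n) U (𝓝 0) :=
  H.hR.const_div_atTop C

theorem hinv2 (H : Hyp2 ε j M s0 s1 F R U) (g : ℕ → ℝ) (z : ℝ) (hg : Tendsto g U (𝓝 z)) :
    Tendsto (fun n => g n / R n) U (𝓝 0) := by
  have h := hg.mul (H.hinv 1)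
  rw [mul_zero] at h
  refine h.congr fun n => ?_
  ring

theorem M1 (H : Hyp2 ε j M s0 s1 F R U) : 1 ≤ M := by
  rw [H.hM]
  have h1 : (1 : ℤ) ≤ j := by exact_mod_cast H.hj
  omega

/-- the two relations in a zone -/
theorem ev (H : Hyp2 ε j M s0 s1 F R U)
    (he : Tendsto (fun n => ((⌈2 * R n ^ 2⌉ : ℤ) : ℝ) - 2 * R n ^ 2) U (𝓝 e)) (k : ℤ) (hk : 0 ≤ k)
    (a b : ℝ) (ha : 0 ≤ a) (hb0 : 0 ≤ b) (hb : b ^ 2 < k + e) (hab : (k : ℝ) + e - ε < a ^ 2) :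
    ∀ᶠ n in (U : Filter ℕ), ∀ N : ℤ, a * (M * R n) ≤ |(N : ℝ) - M * R n ^ 2| →
      |(N : ℝ) - M * R n ^ 2| ≤ b * (M * R n) →
      (N ≠ 0 ∧ M * (⌈2 * R n ^ 2⌉ + k) - N ≠ 0) ∧
      F n N * F n (M * (⌈2 * R n ^ 2⌉ + k) - N) = s0 n ∧
      F n (N + 2 * j) * F n (M * (⌈2 * R n ^ 2⌉ + k) - N) = s1 n := by
  obtain ⟨σ, hσ⟩ : ∃ σ, σ = min ((k + e - b ^ 2) / 2) ((a ^ 2 + ε - k - e) / 2) := ⟨_, rfl⟩
  have hσ0 : 0 < σ := by rw [hσ]; apply lt_min <;> linarith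
  have hσ1 : σ ≤ (k + e - b ^ 2) / 2 := by rw [hσ]; exact min_le_left _ _
  have hσ2 : σ ≤ (a ^ 2 + ε - k - e) / 2 := by rw [hσ]; exact min_le_right _ _
  have hM1 := H.M1
  have hMr : (1 : ℝ) ≤ (M : ℝ) := by exact_mod_cast hM1
  have hjr : (1 : ℝ) ≤ (j : ℝ) := by exact_mod_cast H.hj
  have hk0 : (0 : ℝ) ≤ k := by exact_mod_cast hk
  have hK : Tendsto (fun n => (((⌈2 * R n ^ 2⌉ : ℤ) : ℝ) - 2 * R n ^ 2) + k) U (𝓝 (e + k)) :=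
    he.add_const _
  have h1 : Tendsto (fun n => ((((⌈2 * R n ^ 2⌉ : ℤ) : ℝ) - 2 * R n ^ 2) + k) * (1 - b / R n)) U
      (𝓝 ((e + k) * (1 - 0))) := hK.mul ((H.hinv b).const_sub 1)
  have h2 : Tendsto (fun n => ((((⌈2 * R n ^ 2⌉ : ℤ) : ℝ) - 2 * R n ^ 2) + k) * (1 + b / R n)) U
      (𝓝 ((e + k) * (1 + 0))) := hK.mul ((H.hinv b).const_add 1)
  have e1 := h1.eventually_const_lt (show b ^ 2 + σ < (e + k) * (1 - 0) by linarith)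
  have e2 := h2.eventually_lt_const (show (e + k) * (1 + 0) < a ^ 2 + ε - σ by linarith)
  obtain ⟨C0, hC0⟩ : ∃ C0 : ℝ, C0 = 2 * j * M * b + 2 * j * M * (k + 1) + j ^ 2 := ⟨_, rfl⟩
  filter_upwards [e1, e2, H.Rpos 1, H.Rpos (C0 / (M ^ 2 * σ))] with n c1 c2 c3 c4 N hN1 hN2
  have hJ : 0 ≤ ((⌈2 * R n ^ 2⌉ : ℤ) : ℝ) - 2 * R n ^ 2 := by
    have := Int.le_ceil (2 * R n ^ 2)
    linarith
  have hJ1 : ((⌈2 * R n ^ 2⌉ : ℤ) : ℝ) - 2 * R n ^ 2 < 1 := by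
    have := Int.ceil_lt_add_one (2 * R n ^ 2)
    linarith
  obtain ⟨K, hKd⟩ : ∃ K, K = (((⌈2 * R n ^ 2⌉ : ℤ) : ℝ) - 2 * R n ^ 2) + k := ⟨_, rfl⟩
  obtain ⟨d, hd⟩ : ∃ d, d = ((N : ℝ) - M * R n ^ 2) / M := ⟨_, rfl⟩
  rw [← hKd] at c1 c2
  have hK0 : 0 ≤ K := by rw [hKd]; linarith
  have hK1 : K ≤ k + 1 := by rw [hKd]; linarith
  have hM0 : (0 : ℝ) < M := by linarith
  have hR0 : 0 < R n := by linarith
  have hNd : (N : ℝ) = M * (R n ^ 2 + d) := by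
    rw [hd]
    field_simp
    ring
  have hNd2 : |(N : ℝ) - M * R n ^ 2| = M * |d| := by
    rw [hNd, show (M : ℝ) * (R n ^ 2 + d) - M * R n ^ 2 = M * d by ring, abs_mul, abs_of_pos hM0]
  rw [hNd2] at hN1 hN2
  have q1 : a * R n ≤ |d| := by
    have : (M : ℝ) * (a * R n) ≤ M * |d| := by linarith
    exact le_of_mul_le_mul_left this hM0
  have q2 : |d| ≤ b * R n := by
    have : (M : ℝ) * |d| ≤ M * (b * R n) := by linarith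
    exact le_of_mul_le_mul_left this hM0
  obtain ⟨r1, r2⟩ := core K a b ε σ (R n) d hR0 ha hK0 c1 (by linarith) q1 q2
  have hC : C0 ≤ (M ^ 2 * σ) * R n := by
    have : C0 / (M ^ 2 * σ) ≤ R n := c4.le
    rw [div_le_iff₀ (by positivity)] at this
    linarith
  have hC00 : 0 ≤ C0 := by rw [hC0]; positivity
  have hC2 : C0 * R n ≤ M ^ 2 * σ * R n ^ 2 := by
    have := mul_le_mul_of_nonneg_right hC hR0.le
    nlinarith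
  have hm2 : ((M * (⌈2 * R n ^ 2⌉ + k) - N : ℤ) : ℝ) = M * (R n ^ 2 + K - d) := by
    push_cast
    rw [hNd, hKd]
    ring
  have hdb := abs_le.1 q2
  have hjM : (0 : ℝ) < 2 * j * M := by positivity
  have hC3 : 2 * j * M * b * R n + 2 * j * M * (k + 1) + j ^ 2 ≤ C0 * R n := by
    rw [hC0]
    have s1 : 2 * j * M * (k + 1) ≤ 2 * j * M * ((k : ℝ) + 1) * R n :=
      le_mul_of_one_le_right (by positivity) c3.le
    have s2 : (j : ℝ) ^ 2 ≤ j ^ 2 * R n := le_mul_of_one_le_right (by positivity) c3.le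
    nlinarith
  have hbd : 2 * j * M * d ≤ 2 * j * M * (b * R n) := mul_le_mul_of_nonneg_left hdb.2 hjM.le
  have hbd' : -(2 * j * M * (b * R n)) ≤ 2 * j * M * d := by
    have := mul_le_mul_of_nonneg_left hdb.1 hjM.le
    linarith
  have hKb : 2 * j * M * K ≤ 2 * j * M * ((k : ℝ) + 1) := mul_le_mul_of_nonneg_left hK1 hjM.le
  have hKb0 : 0 ≤ 2 * j * M * K := by positivity
  have hMM : (0 : ℝ) < M ^ 2 := by positivity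
  have hj2 : (0 : ℝ) < (j : ℝ) ^ 2 := by positivity
  have r1' := mul_lt_mul_of_pos_left r1 hMM
  have r2' := mul_le_mul_of_nonneg_left r2 hMM.le
  have p1 : ((N * (M * (⌈2 * R n ^ 2⌉ + k) - N) : ℤ) : ℝ) =
      M ^ 2 * (R n ^ 4 - d ^ 2 + K * (R n ^ 2 + d)) := by
    rw [Int.cast_mul, hm2, hNd]
    ring
  have p2 : (((N + 2 * j) * (M * (⌈2 * R n ^ 2⌉ + k) - N) : ℤ) : ℝ) =
      M ^ 2 * (R n ^ 4 - d ^ 2 + K * (R n ^ 2 + d)) + 2 * j * M * (R n ^ 2 + K - d) := by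
    rw [Int.cast_mul, hm2]
    push_cast
    rw [hNd]
    ring
  have w1 : (M : ℝ) ^ 2 * R n ^ 4 < ((N * (M * (⌈2 * R n ^ 2⌉ + k) - N) : ℤ) : ℝ) := by
    rw [p1]
    have : 0 < (M : ℝ) ^ 2 * (σ * R n ^ 2) := by positivity
    linarith
  have w2 : ((N * (M * (⌈2 * R n ^ 2⌉ + k) - N) : ℤ) : ℝ) ≤
      M ^ 2 * R n ^ 4 + ε * M ^ 2 * R n ^ 2 := by
    rw [p1]
    have : 0 < (M : ℝ) ^ 2 * (σ * R n ^ 2) := by positivity
    linarith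
  have w3 : (M : ℝ) ^ 2 * R n ^ 4 + 2 * j * M * R n ^ 2 + j ^ 2 <
      (((N + 2 * j) * (M * (⌈2 * R n ^ 2⌉ + k) - N) : ℤ) : ℝ) := by
    rw [p2]
    have t1 : 2 * j * M * (R n ^ 2 + K - d) = 2 * j * M * R n ^ 2 + 2 * j * M * K - 2 * j * M * d := by
      ring
    have t2 : (M : ℝ) ^ 2 * (R n ^ 4 + σ * R n ^ 2) = M ^ 2 * R n ^ 4 + M ^ 2 * σ * R n ^ 2 := by ring
    have t3 : 0 < 2 * j * M * ((k : ℝ) + 1) := by positivity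
    rw [t1]
    rw [t2] at r1'
    linarith
  have w4 : (((N + 2 * j) * (M * (⌈2 * R n ^ 2⌉ + k) - N) : ℤ) : ℝ) ≤
      M ^ 2 * R n ^ 4 + 2 * j * M * R n ^ 2 + ε * M ^ 2 * R n ^ 2 := by
    rw [p2]
    have t1 : 2 * j * M * (R n ^ 2 + K - d) = 2 * j * M * R n ^ 2 + 2 * j * M * K - 2 * j * M * d := by
      ring
    have t2 : (M : ℝ) ^ 2 * (R n ^ 4 + (ε - σ) * R n ^ 2) =
      M ^ 2 * R n ^ 4 + ε * M ^ 2 * R n ^ 2 - M ^ 2 * σ * R n ^ 2 := by ring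
    rw [t1]
    rw [t2] at r2'
    linarith
  have hne : N * (M * (⌈2 * R n ^ 2⌉ + k) - N) ≠ 0 := by
    intro h0
    rw [h0] at w1
    have : 0 < (M : ℝ) ^ 2 * R n ^ 4 := by positivity
    simp at w1
    linarith
  have hne2 : (N + 2 * j) * (M * (⌈2 * R n ^ 2⌉ + k) - N) ≠ 0 := by
    intro h0
    rw [h0] at w3
    have : 0 < (M : ℝ) ^ 2 * R n ^ 4 + 2 * j * M * R n ^ 2 + j ^ 2 := by positivity
    simp at w3
    linarith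
  refine ⟨⟨left_ne_zero_of_mul hne, right_ne_zero_of_mul hne⟩, ?_, ?_⟩
  · rw [← H.hmul n _ _ (left_ne_zero_of_mul hne) (right_ne_zero_of_mul hne)]
    exact H.hW0 n _ w1 w2
  · rw [← H.hmul n _ _ (left_ne_zero_of_mul hne2) (right_ne_zero_of_mul hne2)]
    exact H.hW1 n _ w3 w4

end Hyp2

end Pool.Agent.Helper38.PI
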