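import Mathlib
import Pool.Agent.Helper38.PI.Zon

/-!
# Periodicity of the zone constants, and the main theorem on sign changes
-/

set_option autoImplicit false

open Filter Topology
open Pool.Agent.Helper38.PG (rlim)

namespace Pool.Agent.Helper38.PI

universe w

private theorem four {G : Type*} [CommGroup G] (a a' b b' c0 c1 c2 s γ : G) (i m k : ℤ)
    (e1 : a * b = c0 * γ ^ (i * m)) (e2 : a' * b = c1 * γ ^ ((i + 1) * m))
    (e3 : a * b' = s * c2⁻¹ * γ ^ (-(k + 2)) * γ ^ (i * (m - 1)))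
    (e4 : a' * b' = s * c1⁻¹ * γ ^ (-(k + 1)) * γ ^ ((i + 1) * (m - 1))) : c2 * c0 = c1 * c1 := by
  have h : (a * b) * (a' * b') = (a' * b) * (a * b') := by ac_rfl
  rw [e1, e2, e3, e4] at h
  have h1 : c0 * c1⁻¹ * (s * γ ^ (i * m + -(k + 1) + (i + 1) * (m - 1))) =
      c1 * c2⁻¹ * (s * γ ^ (i * m + -(k + 1) + (i + 1) * (m - 1))) := by
    rw [zpow_add, zpow_add]
    rw [show c1 * c2⁻¹ * (s * (γ ^ (i * m) * γ ^ (-(k + 1)) * γ ^ ((i + 1) * (m - 1)))) =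
      c1 * c2⁻¹ * (s * (γ ^ ((i + 1) * m) * γ ^ (-(k + 2)) * γ ^ (i * (m - 1)))) by
      rw [← zpow_add, ← zpow_add, ← zpow_add, ← zpow_add]
      congr 3
      ring]
    calc c0 * c1⁻¹ * (s * (γ ^ (i * m) * γ ^ (-(k + 1)) * γ ^ ((i + 1) * (m - 1)))) =
        c0 * γ ^ (i * m) * (s * c1⁻¹ * γ ^ (-(k + 1)) * γ ^ ((i + 1) * (m - 1))) := by ac_rfl
      _ = c1 * γ ^ ((i + 1) * m) * (s * c2⁻¹ * γ ^ (-(k + 2)) * γ ^ (i * (m - 1))) := h
      _ = _ := by ac_rfl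
  have h2 := mul_right_cancel h1
  calc c2 * c0 = c2 * (c0 * c1⁻¹) * c1 := by rw [mul_assoc c2, inv_mul_cancel_right]
    _ = c2 * (c1 * c2⁻¹) * c1 := by rw [h2]
    _ = c1 * c1 := by rw [mul_comm c1 c2⁻¹, mul_inv_cancel_left]

private theorem openc (g : ℝ × ℝ → ℝ) (p : ℝ × ℝ) (hg : ContinuousAt g p) (x y : ℝ) (h0 : 0 < g p)
    (h1 : x < g p ^ 2) (h2 : g p ^ 2 < y) :
    ∀ᶠ p' in 𝓝 p, 0 < g p' ∧ x < g p' ^ 2 ∧ g p' ^ 2 < y :=
  (hg.eventually_const_lt h0).and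
    (((hg.pow 2).eventually_const_lt h1).and ((hg.pow 2).eventually_lt_const h2))

namespace Zon

variable {G : Type*} [CommGroup G] {ε : ℝ} {s0 γ : ℕ → G} {F : ℕ → ℤ → G} {R : ℕ → ℝ}
  {U : Ultrafilter ℕ} {e : ℝ}

/-- zone constants are in geometric progression -/
theorem period (H : Zon ε s0 γ F R U) (he0 : 0 ≤ e) (c : ℤ → ℕ → G)
    (hc : ∀ k : ℤ, 1 ≤ k → ∀ t : ℝ, 0 < t → (k : ℝ) + e - ε < t ^ 2 → t ^ 2 < k + e →
      HasVal F γ R U t (c k) ∧ HasVal F γ R U (-t) (fun n => s0 n * (c k n)⁻¹ * γ n ^ (-k))) (k : ℤ) (hk1 : 1 ≤ k)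
    (hk : 1 / ε ≤ (k : ℝ)) :
    ∀ᶠ n in (U : Filter ℕ), c (k + 2) n * c k n = c (k + 1) n * c (k + 1) n := by
  have hε := H.hε
  have hε1 := H.hε1
  have hk1' : (1 : ℝ) ≤ k := by exact_mod_cast hk1
  obtain ⟨A, hA⟩ : ∃ A, A = Real.sqrt (k + e - ε / 2) := ⟨_, rfl⟩
  obtain ⟨B, hB⟩ : ∃ B, B = Real.sqrt (k + 2 + e - ε / 2) := ⟨_, rfl⟩
  have hA2 : A ^ 2 = k + e - ε / 2 := by rw [hA, Real.sq_sqrt]; linarith
  have hB2 : B ^ 2 = k + 2 + e - ε / 2 := by rw [hB, Real.sq_sqrt]; linarith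
  have hA0 : 0 < A := by rw [hA]; apply Real.sqrt_pos.2; linarith
  have hB0 : 0 < B := by rw [hB]; apply Real.sqrt_pos.2; linarith
  have hAB : A < B := by nlinarith
  have hS : 0 < A + B := by linarith
  have hinv : 1 / (A + B) = (B - A) / 2 := by
    rw [div_eq_iff hS.ne']
    nlinarith
  -- the square of the middle point
  have hmid : ((A + B) / 2) ^ 2 = k + 1 + e - ε / 2 - ((B - A) / 2) ^ 2 := by nlinarith
  have hgap : ((B - A) / 2) ^ 2 < ε / 2 := by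
    rw [← hinv, div_pow, one_pow, div_lt_iff₀ (by positivity)]
    rw [div_le_iff₀ hε] at hk
    have h1 : 4 * A ^ 2 ≤ (A + B) ^ 2 := by nlinarith
    rw [hA2] at h1
    nlinarith
  have hgap0 : 0 < ((B - A) / 2) ^ 2 := by
    have : 0 < (B - A) / 2 := by linarith
    positivity
  have hne : (A + B, A).1 ≠ 0 := hS.ne'
  -- open conditions
  have f1 : ContinuousAt (fun p : ℝ × ℝ => p.2) (A + B, A) := by fun_prop
  have f2 : ContinuousAt (fun p : ℝ × ℝ => p.2 + 1 / p.1) (A + B, A) := by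
    apply ContinuousAt.add f1
    exact ContinuousAt.div continuousAt_const continuousAt_fst hne
  have f3 : ContinuousAt (fun p : ℝ × ℝ => p.1 - p.2) (A + B, A) := by fun_prop
  have f4 : ContinuousAt (fun p : ℝ × ℝ => p.1 - p.2 - 1 / p.1) (A + B, A) := by
    apply ContinuousAt.sub f3
    exact ContinuousAt.div continuousAt_const continuousAt_fst hne
  have w2 : A + 1 / (A + B) = (A + B) / 2 := by rw [hinv]; ring
  have w3 : A + B - A = B := by ring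
  have w4 : A + B - A - 1 / (A + B) = (A + B) / 2 := by rw [hinv]; ring
  have g1 : ∀ᶠ p : ℝ × ℝ in 𝓝 (A + B, A), 0 < p.2 ∧ (k : ℝ) + e - ε < p.2 ^ 2 ∧
      p.2 ^ 2 < (k : ℝ) + e := by
    refine openc _ _ f1 _ _ hA0 ?_ ?_
    · show _ < A ^ 2
      rw [hA2]; linarith
    · show A ^ 2 < _
      rw [hA2]; linarith
  have g2 : ∀ᶠ p : ℝ × ℝ in 𝓝 (A + B, A), 0 < p.2 + 1 / p.1 ∧
      (k : ℝ) + 1 + e - ε < (p.2 + 1 / p.1) ^ 2 ∧ (p.2 + 1 / p.1) ^ 2 < (k : ℝ) + 1 + e := by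
    refine openc _ _ f2 _ _ ?_ ?_ ?_
    · show 0 < A + 1 / (A + B)
      rw [w2]; linarith
    · show _ < (A + 1 / (A + B)) ^ 2
      rw [w2, hmid]; linarith
    · show (A + 1 / (A + B)) ^ 2 < _
      rw [w2, hmid]; linarith
  have g3 : ∀ᶠ p : ℝ × ℝ in 𝓝 (A + B, A), 0 < p.1 - p.2 ∧
      (k : ℝ) + 2 + e - ε < (p.1 - p.2) ^ 2 ∧ (p.1 - p.2) ^ 2 < (k : ℝ) + 2 + e := by
    refine openc _ _ f3 _ _ ?_ ?_ ?_
    · show 0 < A + B - A
      rw [w3]; exact hB0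
    · show _ < (A + B - A) ^ 2
      rw [w3, hB2]; linarith
    · show (A + B - A) ^ 2 < _
      rw [w3, hB2]; linarith
  have g4 : ∀ᶠ p : ℝ × ℝ in 𝓝 (A + B, A), 0 < p.1 - p.2 - 1 / p.1 ∧
      (k : ℝ) + 1 + e - ε < (p.1 - p.2 - 1 / p.1) ^ 2 ∧
      (p.1 - p.2 - 1 / p.1) ^ 2 < (k : ℝ) + 1 + e := by
    refine openc _ _ f4 _ _ ?_ ?_ ?_
    · show 0 < A + B - A - 1 / (A + B)
      rw [w4]; linarith
    · show _ < (A + B - A - 1 / (A + B)) ^ 2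
      rw [w4, hmid]; linarith
    · show (A + B - A - 1 / (A + B)) ^ 2 < _
      rw [w4, hmid]; linarith
  have g := ((g1.and g2).and (g3.and g4)).curry_nhds
  obtain ⟨δ, hδ, hball⟩ := Metric.eventually_nhds_iff.1 g
  -- an irrational square
  obtain ⟨z, hzirr, hz1, hz2⟩ := exists_irrational_btwn
    (show (A + B) ^ 2 < (A + B + δ / 2) ^ 2 from pow_lt_pow_left₀ (by linarith) hS.le (by norm_num))
  obtain ⟨ρ, hρd⟩ : ∃ ρ, ρ = Real.sqrt z := ⟨_, rfl⟩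
  have hz0 : 0 ≤ z := (sq_nonneg (A + B)).trans hz1.le
  have hρ2 : ρ ^ 2 = z := by rw [hρd, Real.sq_sqrt hz0]
  have hρ0 : 0 ≤ ρ := by rw [hρd]; exact Real.sqrt_nonneg _
  have hρ1 : A + B < ρ := by rw [hρd]; exact Real.lt_sqrt_of_sq_lt hz1
  have hρ3 : ρ < A + B + δ / 2 := by rw [hρd, Real.sqrt_lt' (by linarith)]; exact hz2
  have hρpos : 0 < ρ := by linarith
  have hg := hball (y := ρ) (by rw [Real.dist_eq, abs_lt]; constructor <;> linarith)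
  obtain ⟨δ', hδ', hball'⟩ := Metric.eventually_nhds_iff.1 hg
  -- the grid
  have hu : Tendsto (fun n => ((⌊ρ * R n⌋ : ℤ) : ℝ) / R n) U (𝓝 ρ) := by
    have h2 : Tendsto (fun n => ρ - 1 / R n) U (𝓝 ρ) := by
      simpa using (H.hinv 1).const_sub ρ
    refine tendsto_of_tendsto_of_tendsto_of_le_of_le' h2 tendsto_const_nhds ?_ ?_
    · filter_upwards [H.Rpos 0] with n h4
      rw [le_div_iff₀ h4]
      have h5 := Int.sub_one_lt_floor (ρ * R n)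
      have h6 : (ρ - 1 / R n) * R n = ρ * R n - 1 := by field_simp
      rw [h6]
      exact h5.le
    · filter_upwards [H.Rpos 0] with n h4
      rw [div_le_iff₀ h4]
      exact Int.floor_le _
  obtain ⟨t0, v, b, hab⟩ := H.grid _ ρ hρpos hu
  have hdense : Dense (AddSubgroup.closure {ρ, 1 / ρ} : Set ℝ) := by
    rw [dense_addSubgroupClosure_pair_iff]
    have : ρ / (1 / ρ) = z := by
      rw [← hρ2]
      field_simp
    rw [this]
    exact hzirr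
  obtain ⟨y, hy, hyd⟩ := hdense.exists_dist_lt (A - t0) hδ'
  rw [SetLike.mem_coe, AddSubgroup.mem_closure_pair] at hy
  obtain ⟨m, i, hmi⟩ := hy
  obtain ⟨t, ht⟩ : ∃ t, t = t0 + i / ρ + m * ρ := ⟨_, rfl⟩
  have hty : t = t0 + y := by
    rw [ht, ← hmi, zsmul_eq_mul, zsmul_eq_mul]
    ring
  have hcond := hball' (y := t) (by
    rw [Real.dist_eq] at hyd ⊢
    rw [hty, ← abs_neg]
    rw [show -(t0 + y - A) = A - t0 - y by ring]
    exact hyd)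
  simp only at hcond
  obtain ⟨⟨⟨p1, p2, p3⟩, ⟨q1, q2, q3⟩⟩, ⟨⟨r1, r2, r3⟩, ⟨s1, s2, s3⟩⟩⟩ := hcond
  have e1 : ∀ᶠ n in (U : Filter ℕ), F n (⌊ρ * R n⌋ + i) * γ n ^ (-((⌊ρ * R n⌋ + i) * v n)) * b m n =
      c k n * γ n ^ (i * m) := by
    apply hab i m (c k)
    rw [← ht]
    exact (hc k hk1 t p1 p2 p3).1
  have e2 : ∀ᶠ n in (U : Filter ℕ), F n (⌊ρ * R n⌋ + (i + 1)) *
      γ n ^ (-((⌊ρ * R n⌋ + (i + 1)) * v n)) * b m n = c (k + 1) n * γ n ^ ((i + 1) * m) := by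
    apply hab (i + 1) m (c (k + 1))
    rw [show t0 + ((i + 1 : ℤ) : ℝ) / ρ + m * ρ = t + 1 / ρ by rw [ht]; push_cast; ring]
    exact (hc (k + 1) (by omega) (t + 1 / ρ) q1 (by push_cast; linarith) (by push_cast; linarith)).1
  have e3 : ∀ᶠ n in (U : Filter ℕ), F n (⌊ρ * R n⌋ + i) * γ n ^ (-((⌊ρ * R n⌋ + i) * v n)) *
      b (m - 1) n = s0 n * (c (k + 2) n)⁻¹ * γ n ^ (-(k + 2)) * γ n ^ (i * (m - 1)) := by
    apply hab i (m - 1) (fun n => s0 n * (c (k + 2) n)⁻¹ * γ n ^ (-(k + 2)))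
    rw [show t0 + ((i : ℤ) : ℝ) / ρ + ((m - 1 : ℤ) : ℝ) * ρ = -(ρ - t) by rw [ht]; push_cast; ring]
    exact (hc (k + 2) (by omega) (ρ - t) r1 (by push_cast; linarith) (by push_cast; linarith)).2
  have e4 : ∀ᶠ n in (U : Filter ℕ), F n (⌊ρ * R n⌋ + (i + 1)) *
      γ n ^ (-((⌊ρ * R n⌋ + (i + 1)) * v n)) * b (m - 1) n =
      s0 n * (c (k + 1) n)⁻¹ * γ n ^ (-(k + 1)) * γ n ^ ((i + 1) * (m - 1)) := by
    apply hab (i + 1) (m - 1) (fun n => s0 n * (c (k + 1) n)⁻¹ * γ n ^ (-(k + 1)))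
    rw [show t0 + ((i + 1 : ℤ) : ℝ) / ρ + ((m - 1 : ℤ) : ℝ) * ρ = -(ρ - t - 1 / ρ) by
      rw [ht]; push_cast; ring]
    exact (hc (k + 1) (by omega) (ρ - t - 1 / ρ) s1 (by push_cast; linarith)
      (by push_cast; linarith)).2
  filter_upwards [e1, e2, e3, e4] with n f1 f2 f3 f4
  exact four _ _ _ _ _ _ _ _ _ _ _ _ f1 f2 f3 f4

end Zon

/-- The scales `ρ` on which all limit objects are constant. -/
theorem exists_scale (ε : ℝ) (hε : 0 < ε) (hε1 : ε < 1) : ∃ ρ1 ρ2 : ℝ, 0 < ρ1 ∧ ρ1 < ρ2 ∧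
    ∀ (G : Type w) [CommGroup G] (s0 γ : ℕ → G) (F : ℕ → ℤ → G) (R : ℕ → ℝ) (U : Ultrafilter ℕ),
      Zon ε s0 γ F R U →
      (∀ᶠ n in (U : Filter ℕ), γ n = 1) ∧
      (∃ (t : ℝ) (c : ℕ → G), HasVal F γ R U t c ∧ ∀ᶠ n in (U : Filter ℕ), c n * c n = s0 n) ∧
      ∀ ρ : ℝ, ρ1 ≤ ρ → ρ ≤ ρ2 → ∀ u : ℕ → ℤ, Tendsto (fun n => (u n : ℝ) / R n) U (𝓝 ρ) →
        ∀ᶠ n in (U : Filter ℕ), F n (u n + 1) = F n (u n) := by
  obtain ⟨k0, hk0⟩ : ∃ k0 : ℤ, k0 = ⌈1 / ε⌉ + 1 := ⟨_, rfl⟩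
  have hk0r : 1 / ε ≤ (k0 : ℝ) := by
    rw [hk0]
    push_cast
    linarith [Int.le_ceil (1 / ε)]
  have hk01 : 1 ≤ k0 := by
    rw [hk0]
    have : 0 ≤ ⌈1 / ε⌉ := Int.ceil_nonneg (by positivity)
    omega
  have hk01' : (1 : ℝ) ≤ k0 := by exact_mod_cast hk01
  obtain ⟨B, hB⟩ : ∃ B : ℕ, B = ⌈8 / ε⌉₊ + 1 := ⟨_, rfl⟩
  have hB1 : 8 / ε ≤ (B : ℝ) := by
    rw [hB]
    push_cast
    linarith [Nat.le_ceil (8 / ε)]
  have hB0 : 0 < B := by omega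
  obtain ⟨L, hL⟩ : ∃ L : ℕ, L = ⌈32 * (B : ℝ) ^ 2 / ε⌉₊ + 1 := ⟨_, rfl⟩
  have hL1 : 32 * (B : ℝ) ^ 2 / ε ≤ (L : ℝ) := by
    rw [hL]
    push_cast
    linarith [Nat.le_ceil (32 * (B : ℝ) ^ 2 / ε)]
  have hL0 : 0 < L := by omega
  have hL0' : (0 : ℝ) < L := by exact_mod_cast hL0
  obtain ⟨N, hN⟩ : ∃ N : ℤ, N = ⌈256 * ((k0 : ℝ) + 1) / ε ^ 2⌉ := ⟨_, rfl⟩
  have hN1 : 256 * ((k0 : ℝ) + 1) / ε ^ 2 ≤ (N : ℝ) := by rw [hN]; exact Int.le_ceil _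
  have hN00 : (0 : ℝ) < N := by
    have : 0 < 256 * ((k0 : ℝ) + 1) / ε ^ 2 := by positivity
    linarith
  obtain ⟨τ1, hτ1⟩ : ∃ τ : ℝ, τ = 1 / (L : ℝ) ^ 2 := ⟨_, rfl⟩
  have hτ10 : 0 < τ1 := by rw [hτ1]; positivity
  obtain ⟨ρ1, hρ1⟩ : ∃ ρ : ℝ, ρ = 1 / Real.sqrt ((N : ℝ) + 2 * τ1) := ⟨_, rfl⟩
  obtain ⟨ρ2, hρ2⟩ : ∃ ρ : ℝ, ρ = 1 / Real.sqrt ((N : ℝ) + τ1) := ⟨_, rfl⟩
  have hs1 : 0 < Real.sqrt ((N : ℝ) + 2 * τ1) := Real.sqrt_pos.2 (by linarith)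
  have hs2 : 0 < Real.sqrt ((N : ℝ) + τ1) := Real.sqrt_pos.2 (by linarith)
  have hρ10 : 0 < ρ1 := by rw [hρ1]; positivity
  have hρ20 : 0 < ρ2 := by rw [hρ2]; positivity
  have hρ12 : ρ1 < ρ2 := by
    rw [hρ1, hρ2]
    apply one_div_lt_one_div_of_lt hs2
    apply Real.sqrt_lt_sqrt (by linarith)
    linarith
  have hsq1 : 1 / ρ1 ^ 2 = N + 2 * τ1 := by
    rw [hρ1, div_pow, one_pow, one_div_one_div, Real.sq_sqrt (by linarith)]
  have hsq2 : 1 / ρ2 ^ 2 = N + τ1 := by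
    rw [hρ2, div_pow, one_pow, one_div_one_div, Real.sq_sqrt (by linarith)]
  refine ⟨ρ1, ρ2, hρ10, hρ12, fun G _ s0 γ F R U H => ?_⟩
  obtain ⟨e, ⟨he0, he1⟩, he⟩ := rlim U (fun n => ((⌈2 * R n ^ 2⌉ : ℤ) : ℝ) - 2 * R n ^ 2) 0 1
    (Eventually.of_forall fun n => by
      have h1 := Int.le_ceil (2 * R n ^ 2)
      have h2 := Int.ceil_lt_add_one (2 * R n ^ 2)
      constructor <;> linarith)
  have hcex : ∀ k : ℤ, ∃ c : ℕ → G, 1 ≤ k → ∀ t : ℝ, 0 < t → (k : ℝ) + e - ε < t ^ 2 →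
      t ^ 2 < k + e → HasVal F γ R U t c ∧
        HasVal F γ R U (-t) (fun n => s0 n * (c n)⁻¹ * γ n ^ (-k)) := by
    intro k
    by_cases hk : 1 ≤ k
    · obtain ⟨c, hc⟩ := H.hz e he0 he k hk
      exact ⟨c, fun _ => hc⟩
    · exact ⟨1, fun h => absurd h hk⟩
  choose c hc using hcex
  have hper : ∀ k, k0 ≤ k → ∀ᶠ n in (U : Filter ℕ), c (k + 2) n * c k n = c (k + 1) n * c (k + 1) n := by
    intro k hk
    apply H.period he0 c hc k (by omega)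
    have : (k0 : ℝ) ≤ k := by exact_mod_cast hk
    linarith
  obtain ⟨cg, hcg⟩ : ∃ cg : ℤ → Germ (U : Filter ℕ) G, ∀ k, cg k = ((c k : ℕ → G) : Germ _ _) :=
    ⟨fun k => ((c k : ℕ → G) : Germ _ _), fun _ => rfl⟩
  obtain ⟨κ, hκ⟩ : ∃ κ, κ = cg (k0 + 1) * (cg k0)⁻¹ := ⟨_, rfl⟩
  have hperg : ∀ k, k0 ≤ k → cg (k + 2) * cg k = cg (k + 1) * cg (k + 1) := by
    intro k hk
    rw [hcg, hcg, hcg]
    exact Germ.coe_eq.2 (hper k hk)
  have hcκ : ∀ k, k0 ≤ k → cg (k + 1) = κ * cg k := by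
    intro k hk
    induction k, hk using Int.leInduction with
    | base => rw [hκ, inv_mul_cancel_right]
    | succ k hk ih =>
      have h1 := hperg k hk
      rw [ih] at h1 ⊢
      rw [show k + 1 + 1 = k + 2 by ring]
      rw [show κ * cg k * (κ * cg k) = κ * (κ * cg k) * cg k by
        rw [mul_assoc κ (cg k), mul_assoc κ (κ * cg k), mul_comm (cg k)]] at h1
      exact mul_right_cancel h1
  have key : ∀ ρ : ℝ, ρ1 ≤ ρ → ρ ≤ ρ2 → ∀ u : ℕ → ℤ,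
      Tendsto (fun n => (u n : ℝ) / R n) U (𝓝 ρ) →
      ((∀ᶠ n in (U : Filter ℕ), γ n = 1) ∧ ∀ᶠ n in (U : Filter ℕ), c k0 n * c k0 n = s0 n) ∧
      ∀ᶠ n in (U : Filter ℕ), F n (u n + 1) = F n (u n) := by
    intro ρ hρa hρb u hu
    have hρ0 : 0 < ρ := by linarith
    obtain ⟨τ, hτd⟩ : ∃ τ : ℝ, τ = 1 / ρ ^ 2 - N := ⟨_, rfl⟩
    have hα : 1 / ρ ^ 2 = N + τ := by rw [hτd]; ring
    have hτa : τ1 ≤ τ := by
      have h1 : 1 / ρ2 ^ 2 ≤ 1 / ρ ^ 2 :=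
        one_div_le_one_div_of_le (by positivity) (pow_le_pow_left₀ hρ0.le hρb 2)
      linarith
    have hτb : τ ≤ 2 * τ1 := by
      have h1 : 1 / ρ ^ 2 ≤ 1 / ρ1 ^ 2 :=
        one_div_le_one_div_of_le (by positivity) (pow_le_pow_left₀ hρ10.le hρa 2)
      linarith
    have hτ0 : 0 < τ := by linarith
    have hτL : 1 ≤ τ * (L : ℝ) ^ 2 := by
      have h1 : τ1 * (L : ℝ) ^ 2 = 1 := by
        rw [hτ1, div_mul_cancel₀ _ (by positivity)]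
      rw [← h1]
      exact mul_le_mul_of_nonneg_right hτa (by positivity)
    have hτB : τ * (B : ℝ) ^ 2 * (2 * L) ≤ ε / 8 := by
      have h1 : 2 * τ1 * (B : ℝ) ^ 2 * (2 * L) = 4 * (B : ℝ) ^ 2 / L := by
        rw [hτ1]
        field_simp
        ring
      have h2 : 4 * (B : ℝ) ^ 2 / L ≤ ε / 8 := by
        rw [div_le_iff₀ hL0']
        rw [div_le_iff₀ hε] at hL1
        linarith
      rw [← h1] at h2
      refine le_trans ?_ h2
      have h3 : τ * (B : ℝ) ^ 2 ≤ 2 * τ1 * (B : ℝ) ^ 2 :=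
        mul_le_mul_of_nonneg_right hτb (by positivity)
      exact mul_le_mul_of_nonneg_right h3 (by positivity)
    have hρs : Real.sqrt ((k0 : ℝ) + 1) * ρ ≤ ε / 16 := by
      apply le_of_sq_le_sq _ (by positivity)
      rw [mul_pow, Real.sq_sqrt (by linarith)]
      have h1 : ρ ^ 2 = 1 / (N + τ) := by rw [← hα, one_div_one_div]
      rw [h1, mul_one_div, div_le_iff₀ (by linarith)]
      rw [div_le_iff₀ (by positivity)] at hN1
      have h2 : 0 < τ * ε ^ 2 := by positivity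
      nlinarith
    obtain ⟨t0, v, b, hab⟩ := H.grid u ρ hρ0 hu
    have Gr : Grid ε e ρ t0 k0 κ ((γ : ℕ → G) : Germ (U : Filter ℕ) G)
        ((s0 : ℕ → G) : Germ (U : Filter ℕ) G) cg
        (fun i => ((fun n => F n (u n + i) * γ n ^ (-((u n + i) * v n)) : ℕ → G) :
          Germ (U : Filter ℕ) G))
        (fun k => ((b k : ℕ → G) : Germ (U : Filter ℕ) G)) :=
      { hε := hε
        hε1 := hε1
        he := he0
        he1 := he1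
        hk0 := hk01
        hρ := hρ0
        hρs := hρs
        hc := hcκ
        hpos := fun i k l hl h1 h2 h3 => by
          rw [hcg]
          exact Germ.coe_eq.2 (hab i k _ (hc l (by omega) _ h1 h2 h3).1)
        hneg := fun i k l hl h1 h2 h3 => by
          rw [hcg]
          have h4 := (hc l (by omega) (-(t0 + i / ρ + k * ρ)) (by linarith)
            (by rw [neg_sq]; exact h2) (by rw [neg_sq]; exact h3)).2
          rw [neg_neg] at h4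
          refine Germ.coe_eq.2 ?_
          filter_upwards [hab i k _ h4] with n hn
          show F n (u n + i) * γ n ^ (-((u n + i) * v n)) * b k n =
            s0 n * (c l n)⁻¹ * γ n ^ (i * k - l)
          rw [hn, mul_assoc, ← zpow_add, show -l + i * k = i * k - l by ring] }
    obtain ⟨m0, m1, m2⟩ := Gr.main N τ L B hα hτ0 hB0 hB1 hL0 hτL hτB
    rw [hcg] at m1
    have m0' : ∀ᶠ n in (U : Filter ℕ), γ n = 1 := Germ.coe_eq.1 m0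
    have m1' := Germ.coe_eq.1 m1
    have m2' := Germ.coe_eq.1 m2
    refine ⟨⟨m0', m1'⟩, ?_⟩
    filter_upwards [m2', m0'] with n h1 h2
    simpa [h2] using h1
  have hu : Tendsto (fun n => ((⌊ρ1 * R n⌋ : ℤ) : ℝ) / R n) U (𝓝 ρ1) := by
    have h2 : Tendsto (fun n => ρ1 - 1 / R n) U (𝓝 ρ1) := by
      simpa using (H.hinv 1).const_sub ρ1
    refine tendsto_of_tendsto_of_tendsto_of_le_of_le' h2 tendsto_const_nhds ?_ ?_
    · filter_upwards [H.Rpos 0] with n h4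
      rw [le_div_iff₀ h4]
      have h5 := Int.sub_one_lt_floor (ρ1 * R n)
      have h6 : (ρ1 - 1 / R n) * R n = ρ1 * R n - 1 := by field_simp
      rw [h6]
      exact h5.le
    · filter_upwards [H.Rpos 0] with n h4
      rw [div_le_iff₀ h4]
      exact Int.floor_le _
  refine ⟨(key ρ1 le_rfl hρ12.le _ hu).1.1,
    ⟨Real.sqrt (k0 + e - ε / 2), c k0, ?_, (key ρ1 le_rfl hρ12.le _ hu).1.2⟩,
    fun ρ h1 h2 u hu => (key ρ h1 h2 u hu).2⟩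
  have h0 : (0 : ℝ) < k0 + e - ε / 2 := by linarith
  refine (hc k0 hk01 _ (Real.sqrt_pos.2 h0) ?_ ?_).1
  · rw [Real.sq_sqrt h0.le]; linarith
  · rw [Real.sq_sqrt h0.le]; linarith

end Pool.Agent.Helper38.PI
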