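import Mathlib
import Pool.Agent.Helper38.PG.Small
import Pool.Agent.Helper38.PI.ZonMain

/-!
# The conclusion from the zone interface
-/

set_option autoImplicit false

open Filter Topology
open Pool.Agent.Helper38.PG (rlim near small)

namespace Pool.Agent.Helper38.PI

universe w

/-- The conclusion for the limit objects. -/
theorem concl (ε : ℝ) (hε : 0 < ε) (hε1 : ε < 1) : ∃ c : ℝ, 0 < c ∧
    ∀ (G : Type w) [CommGroup G] (s0 γ : ℕ → G) (F : ℕ → ℤ → G) (R : ℕ → ℝ) (U : Ultrafilter ℕ),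
      Zon ε s0 γ F R U →
      ∀ᶠ n in (U : Filter ℕ), γ n = 1 ∧ s0 n = 1 ∧ ∀ k : ℤ, 1 ≤ k → (k : ℝ) ≤ c * R n → F n k = 1 := by
  obtain ⟨ρ1, ρ2, hρ1, hρ, hmain⟩ := Pool.Agent.Helper38.PI.exists_scale.{w} ε hε hε1
  obtain ⟨B0, hB0⟩ : ∃ B0 : ℤ, B0 = ⌈4 * ρ1 / (ρ2 - ρ1) + 1⌉ := ⟨_, rfl⟩
  have hB01 : 4 * ρ1 / (ρ2 - ρ1) + 1 ≤ B0 := by rw [hB0]; exact Int.le_ceil _
  have hδ : 0 < ρ2 - ρ1 := by linarith
  have hB00 : (1 : ℝ) ≤ B0 := by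
    have : 0 ≤ 4 * ρ1 / (ρ2 - ρ1) := by positivity
    linarith
  have hc : 0 < (ρ2 - ρ1) / (8 * B0) := by positivity
  refine ⟨(ρ2 - ρ1) / (8 * B0), hc, fun G _ s0 γ F R U H => ?_⟩
  obtain ⟨hγ, ⟨t, c, ⟨η, hη, hval⟩, hcs⟩, hsc⟩ := hmain G s0 γ F R U H
  -- constancy on the whole range of scales
  have hall : ∀ᶠ n in (U : Filter ℕ), ∀ z : ℤ, ρ1 * R n ≤ z → (z : ℝ) ≤ ρ2 * R n →
      F n (z + 1) = F n z := by
    by_contra hcon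
    rw [← Ultrafilter.eventually_not] at hcon
    have hex : ∀ n, ∃ u : ℤ, (¬ ∀ z : ℤ, ρ1 * R n ≤ z → (z : ℝ) ≤ ρ2 * R n → F n (z + 1) = F n z) →
        ρ1 * R n ≤ u ∧ (u : ℝ) ≤ ρ2 * R n ∧ F n (u + 1) ≠ F n u := by
      intro n
      by_cases h : ∀ z : ℤ, ρ1 * R n ≤ z → (z : ℝ) ≤ ρ2 * R n → F n (z + 1) = F n z
      · exact ⟨0, fun h' => absurd h h'⟩
      · push Not at h
        obtain ⟨z, h1, h2, h3⟩ := h
        exact ⟨z, fun _ => ⟨h1, h2, h3⟩⟩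
    choose u hu using hex
    obtain ⟨ρ, ⟨h1, h2⟩, h3⟩ := rlim U (fun n => (u n : ℝ) / R n) ρ1 ρ2 (by
      filter_upwards [hcon, H.Rpos 0] with n h1 h2
      obtain ⟨h3, h4, -⟩ := hu n h1
      rw [Set.mem_Icc, le_div_iff₀ h2, div_le_iff₀ h2]
      exact ⟨h3, h4⟩)
    have h4 := hsc ρ h1 h2 u h3
    obtain ⟨n, h5, h6⟩ := (h4.and hcon).exists
    exact (hu n h6).2.2 h5
  have hsmall : ∀ᶠ n in (U : Filter ℕ), ∀ k : ℤ, 1 ≤ k → (k : ℝ) ≤ (ρ2 - ρ1) / (8 * B0) * R n →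
      F n k = 1 := by
    filter_upwards [hall, H.Rpos (16 / (ρ2 - ρ1))] with n h1 h2 k hk1 hk2
    exact small (F n) (H.hmul n) ρ1 ρ2 (R n) hρ1 hρ h2.le h1 B0 hB01 k hk1 hk2
  obtain ⟨K, hK, hnear⟩ := near R U H.hR _ hc
  have hKR : ∀ᶠ n in (U : Filter ℕ), (K : ℝ) ≤ (ρ2 - ρ1) / (8 * B0) * R n := by
    filter_upwards [H.Rpos (K / ((ρ2 - ρ1) / (8 * B0)))] with n hn
    rw [div_lt_iff₀ hc] at hn
    linarith
  filter_upwards [hsmall, hnear t η hη, hval, hcs, hKR, hγ] with n h1 h2 h3 h4 h5 h0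
  refine ⟨h0, ?_, h1⟩
  obtain ⟨p, q, hp1, hp2, hq1, hq2, hpq⟩ := h2
  have h6 := h3 (K * p * q) hpq
  rw [h0, one_zpow, mul_one] at h6
  rw [H.hmul n (K * p) q (mul_ne_zero (by omega) (by omega)) (by omega),
    H.hmul n K p (by omega) (by omega), h1 K hK h5, h1 p hp1 hp2, h1 q hq1 hq2, one_mul, one_mul] at h6
  rw [← h4, ← h6, one_mul]

end Pool.Agent.Helper38.PI
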