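import Mathlib
import Pool.Agent.Helper38.PI.Two2
import Pool.Agent.Helper38.PI.ZonSmall

/-!
# Two constant windows at a bounded distance
-/

set_option autoImplicit false

open Filter Topology

namespace Pool.Agent.Helper38.PI

universe w

/-- Two windows `(n², n² + κ n]`, `((n + j)², (n + j)² + κ n]`, `j ≥ 1` fixed, on each of which `f` is
constant. -/
theorem near_two (κ : ℝ) (hκ : 0 < κ) (j : ℕ) (hj : 1 ≤ j) :
    ∃ c : ℝ, 0 < c ∧ ∃ n0 : ℕ, ∀ n : ℕ, n0 ≤ n → ∀ (G : Type w) [CommGroup G] (f : ℕ → G),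
      (∀ a b : ℕ, a ≠ 0 → b ≠ 0 → f (a * b) = f a * f b) →
      (∀ m m' : ℕ, (n : ℝ) ^ 2 < m → (m : ℝ) ≤ (n : ℝ) ^ 2 + κ * n → (n : ℝ) ^ 2 < m' →
        (m' : ℝ) ≤ (n : ℝ) ^ 2 + κ * n → f m = f m') →
      (∀ m m' : ℕ, ((n : ℝ) + j) ^ 2 < m → (m : ℝ) ≤ ((n : ℝ) + j) ^ 2 + κ * n →
        ((n : ℝ) + j) ^ 2 < m' → (m' : ℝ) ≤ ((n : ℝ) + j) ^ 2 + κ * n → f m = f m') →
      ∀ k : ℕ, k ≠ 0 → (k : ℝ) ≤ c * Real.sqrt n → f k = 1 := by
  obtain ⟨M, hM⟩ : ∃ M : ℤ, M = 2 * j := ⟨_, rfl⟩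
  have hM1 : 1 ≤ M := by
    rw [hM]
    have h1 : (1 : ℤ) ≤ j := by exact_mod_cast hj
    omega
  have hMr : (1 : ℝ) ≤ (M : ℝ) := by exact_mod_cast hM1
  have hM0 : (0 : ℝ) < M := by linarith
  obtain ⟨ε, hεd⟩ : ∃ ε : ℝ, ε = min (κ / M) (1 / 2) := ⟨_, rfl⟩
  have hε : 0 < ε := by rw [hεd]; exact lt_min (by positivity) (by norm_num)
  have hε1 : ε < 1 := by
    have := min_le_right (κ / (M : ℝ)) (1 / 2)
    rw [← hεd] at this
    linarith
  have hεκ : ε * M ≤ κ := by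
    have := min_le_left (κ / (M : ℝ)) (1 / 2)
    rw [← hεd, le_div_iff₀ hM0] at this
    exact this
  obtain ⟨c1, hc1, hmain⟩ := concl.{w} ε hε hε1
  have hsM : 0 < Real.sqrt M := Real.sqrt_pos.2 hM0
  refine ⟨c1 / Real.sqrt M, by positivity, ?_⟩
  by_contra hcon
  push Not at hcon
  obtain ⟨A, hA⟩ : ∃ A : ℕ, A = ⌈1 / κ⌉₊ + 1 := ⟨_, rfl⟩
  have hA1 : 1 / κ ≤ (A : ℝ) := by
    rw [hA]
    push_cast
    linarith [Nat.le_ceil (1 / κ)]
  have h := fun i : ℕ => hcon (i + A)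
  choose n hn G inst f hf hW0 hW1 k hk0 hk1 hk2 using h
  obtain ⟨F, hF⟩ : ∃ F : ℕ → ℤ → (∀ i, G i), ∀ i z, F i z = Pi.mulSingle i (f i z.natAbs) :=
    ⟨fun i z => Pi.mulSingle i (f i z.natAbs), fun _ _ => rfl⟩
  have hn1 : ∀ i : ℕ, (i : ℝ) + A ≤ n i := fun i => by exact_mod_cast hn i
  have hnA : ∀ i, 1 / κ ≤ (n i : ℝ) := fun i => by
    have := hn1 i
    have h0 : (0 : ℝ) ≤ i := Nat.cast_nonneg i
    linarith
  have hnκ : ∀ i, 1 ≤ κ * n i := fun i => by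
    have := hnA i
    rw [div_le_iff₀ hκ] at this
    linarith
  have hn0 : ∀ i, (0 : ℝ) ≤ n i := fun i => Nat.cast_nonneg _
  have hnat : ∀ y : ℝ, 0 ≤ y → ∀ z : ℤ, y < z → ((z.natAbs : ℕ) : ℝ) = z := by
    intro y hy z hz
    have h2 : (0 : ℝ) < z := by linarith
    have h3 : 0 < z := by exact_mod_cast h2
    rw [Nat.cast_natAbs, abs_of_pos h3]
  have hR2 : ∀ i, Real.sqrt ((n i : ℝ) / M) ^ 2 = (n i : ℝ) / M := fun i =>
    Real.sq_sqrt (div_nonneg (hn0 i) hM0.le)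
  have hR4 : ∀ i, Real.sqrt ((n i : ℝ) / M) ^ 4 = ((n i : ℝ) / M) ^ 2 := fun i => by
    rw [show (4 : ℕ) = 2 * 2 by norm_num, pow_mul, hR2]
  have e4 : ∀ i, (M : ℝ) ^ 2 * Real.sqrt ((n i : ℝ) / M) ^ 4 = (n i : ℝ) ^ 2 := fun i => by
    rw [hR4]
    field_simp
  have e2 : ∀ i, (M : ℝ) * Real.sqrt ((n i : ℝ) / M) ^ 2 = (n i : ℝ) := fun i => by
    rw [hR2]
    field_simp
  have e22 : ∀ i, ε * (M : ℝ) ^ 2 * Real.sqrt ((n i : ℝ) / M) ^ 2 = ε * M * n i := fun i => by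
    rw [hR2]
    field_simp
  have e23 : ∀ i, 2 * (j : ℝ) * (M : ℝ) * Real.sqrt ((n i : ℝ) / M) ^ 2 = 2 * j * n i := fun i => by
    rw [hR2]
    field_simp
  have hεn : ∀ i, ε * M * n i ≤ κ * n i := fun i => mul_le_mul_of_nonneg_right hεκ (hn0 i)
  have H : Hyp2 ε j M (fun i => F i (n i ^ 2 + 1)) (fun i => F i ((n i + j) ^ 2 + 1)) F
      (fun i => Real.sqrt ((n i : ℝ) / M)) (hyperfilter ℕ) :=
    { hε := hε
      hε1 := hε1
      hj := hj
      hM := hM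
      hmul := by
        intro i a b ha hb
        rw [hF, hF, hF, Int.natAbs_mul, hf i _ _ (by omega) (by omega), Pi.mulSingle_mul]
      hR := by
        have h1 : Tendsto (fun i => (n i : ℝ) / M) atTop atTop := by
          apply Tendsto.atTop_div_const hM0
          refine tendsto_atTop_mono (fun i => ?_) tendsto_natCast_atTop_atTop
          have := hn1 i
          have h0 : (0 : ℝ) ≤ A := Nat.cast_nonneg _
          linarith
        exact (Real.tendsto_sqrt_atTop.comp h1).mono_left Nat.hyperfilter_le_atTop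
      hW0 := by
        intro i z h1 h2
        rw [e4] at h1 h2
        rw [e22] at h2
        have h5 : (n i : ℝ) ^ 2 < ((((n i : ℤ) ^ 2 + 1 : ℤ) : ℝ)) := by
          push_cast
          linarith
        have h6 : ((((n i : ℤ) ^ 2 + 1 : ℤ) : ℝ)) ≤ (n i : ℝ) ^ 2 + κ * n i := by
          push_cast
          linarith [hnκ i]
        simp only [hF]
        congr 1
        apply hW0 i
        · rw [hnat _ (sq_nonneg _) z h1]; exact h1
        · rw [hnat _ (sq_nonneg _) z h1]; linarith [hεn i]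
        · rw [hnat _ (sq_nonneg _) _ h5]; exact h5
        · rw [hnat _ (sq_nonneg _) _ h5]; exact h6
      hW1 := by
        intro i z h1 h2
        rw [e4, e23] at h1 h2
        rw [e22] at h2
        have h1' : ((n i : ℝ) + j) ^ 2 < z := by
          have : ((n i : ℝ) + j) ^ 2 = (n i : ℝ) ^ 2 + 2 * j * n i + j ^ 2 := by ring
          linarith
        have h2' : (z : ℝ) ≤ ((n i : ℝ) + j) ^ 2 + κ * n i := by
          have : ((n i : ℝ) + j) ^ 2 = (n i : ℝ) ^ 2 + 2 * j * n i + j ^ 2 := by ring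
          have h3 : (0 : ℝ) ≤ (j : ℝ) ^ 2 := sq_nonneg _
          linarith [hεn i]
        have h5 : ((n i : ℝ) + j) ^ 2 < (((((n i : ℤ) + j) ^ 2 + 1 : ℤ) : ℝ)) := by
          push_cast
          linarith
        have h6 : (((((n i : ℤ) + j) ^ 2 + 1 : ℤ) : ℝ)) ≤ ((n i : ℝ) + j) ^ 2 + κ * n i := by
          push_cast
          linarith [hnκ i]
        simp only [hF]
        congr 1
        apply hW1 i
        · rw [hnat _ (sq_nonneg _) z h1']; exact h1'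
        · rw [hnat _ (sq_nonneg _) z h1']; exact h2'
        · rw [hnat _ (sq_nonneg _) _ h5]; exact h5
        · rw [hnat _ (sq_nonneg _) _ h5]; exact h6 }
  have h1 := hmain _ _ _ _ _ _ H.toZon
  obtain ⟨i, -, -, hk⟩ := h1.exists
  apply hk2 i
  have h7 := hk (k i) (by have := hk0 i; omega) (by
    have h8 := hk1 i
    rw [Real.sqrt_div (hn0 i), Int.cast_natCast]
    calc (k i : ℝ) ≤ c1 / Real.sqrt M * Real.sqrt (n i) := h8
      _ = c1 * (Real.sqrt (n i) / Real.sqrt M) := by ring)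
  rw [hF, Int.natAbs_natCast] at h7
  exact Pi.mulSingle_eq_one_iff.1 h7

end Pool.Agent.Helper38.PI
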